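import Pool.Agent.H58.HN.TargetsG

/-!
# Row GA of the board `hnet_modules`: the poset of the complete bipartite pairs is connected
-/

set_option autoImplicit false

namespace Pool.Agent.H70.HN

open Pool.Agent.H58.HN Pool.Agent.H53.RG

private def qq {T : Type} {R : T → T → Prop} {a b : T} (h : R a b) : BP R :=
  ⟨({a}, {b}), ⟨a, rfl⟩, ⟨b, rfl⟩, by
    rintro _ rfl _ rfl
    exact h⟩

private abbrev Cn {T : Type} {R : T → T → Prop} (x y : BP R) : Prop :=
  Relation.ReflTransGen (fun a b => a ≤ b ∨ b ≤ a) x y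

private theorem qq_le {T : Type} {R : T → T → Prop} (x : BP R) {a b : T} (ha : a ∈ x.1.1)
    (hb : b ∈ x.1.2) : qq (x.2.2.2 a ha b hb) ≤ x := by
  change ((({a}, {b}) : Set T × Set T)) ≤ x.1
  exact ⟨Set.singleton_subset_iff.2 ha, Set.singleton_subset_iff.2 hb⟩

private theorem cn_left {T : Type} {R : T → T → Prop} {a a' b : T} (h : R a b) (h' : R a' b) :
    Cn (qq h) (qq h') := by
  let r : BP R := ⟨({a, a'}, {b}), ⟨a, Or.inl rfl⟩, ⟨b, rfl⟩, by
    rintro c hc _ rfl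
    rcases hc with rfl | hc
    · exact h
    · rw [Set.mem_singleton_iff] at hc
      rw [hc]
      exact h'⟩
  have h1 : qq h ≤ r := qq_le r (Or.inl rfl) rfl
  have h2 : qq h' ≤ r := qq_le r (Or.inr rfl) rfl
  have e1 : Cn (qq h) r := Relation.ReflTransGen.single (Or.inl h1)
  have e2 : Cn r (qq h') := Relation.ReflTransGen.single (Or.inr h2)
  exact e1.trans e2

private theorem cn_right {T : Type} {R : T → T → Prop} {a b b' : T} (h : R a b) (h' : R a b') :
    Cn (qq h) (qq h') := by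
  let r : BP R := ⟨({a}, {b, b'}), ⟨a, rfl⟩, ⟨b, Or.inl rfl⟩, by
    rintro _ rfl c hc
    rcases hc with rfl | hc
    · exact h
    · rw [Set.mem_singleton_iff] at hc
      rw [hc]
      exact h'⟩
  have h1 : qq h ≤ r := qq_le r rfl (Or.inl rfl)
  have h2 : qq h' ≤ r := qq_le r rfl (Or.inr rfl)
  have e1 : Cn (qq h) r := Relation.ReflTransGen.single (Or.inl h1)
  have e2 : Cn r (qq h') := Relation.ReflTransGen.single (Or.inr h2)
  exact e1.trans e2

private theorem cn_walk {T : Type} {R : T → T → Prop} (hs : ∀ s t, R s t → R t s) :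
    ∀ (k : ℕ) (b a' : T), Walk R (2 * k + 1) b a' → ∀ (a b' : T) (h : R a b) (h' : R a' b'),
      Cn (qq h) (qq h') := by
  intro k
  induction k with
  | zero =>
    rintro b a' ⟨z, hz, rfl⟩ a b' h h'
    exact (cn_left h (hs _ _ hz)).trans (cn_right _ h')
  | succ k ih =>
    rintro b a' hw a b' h h'
    obtain ⟨w, hw1, b1, hw2, hw3⟩ : ∃ w, R b w ∧ ∃ b1, R w b1 ∧ Walk R (2 * k + 1) b1 a' := hw
    exact ((cn_left h (hs _ _ hw1)).trans (cn_right _ hw2)).trans (ih b1 a' hw3 w b' hw2 h')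

theorem pf_GA : T_GA := by
  rintro T R hs ⟨L, hL, hw⟩ x y
  obtain ⟨k, rfl⟩ := hL
  obtain ⟨a, ha⟩ := x.2.1
  obtain ⟨b, hb⟩ := x.2.2.1
  obtain ⟨a', ha'⟩ := y.2.1
  obtain ⟨b', hb'⟩ := y.2.2.1
  have h1 : Cn x (qq (x.2.2.2 a ha b hb)) :=
    Relation.ReflTransGen.single (Or.inr (qq_le x ha hb))
  have h2 : Cn (qq (y.2.2.2 a' ha' b' hb')) y :=
    Relation.ReflTransGen.single (Or.inl (qq_le y ha' hb'))
  exact (h1.trans (cn_walk hs k b a' (hw b a') a b' _ _)).trans h2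

end Pool.Agent.H70.HN
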